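import Pool.Agent.Lib.DR.PI.AllZ
import Pool.Agent.Lib.DR.LS.All
import Pool.Agent.Lib.DR.C.All
import Pool.Agent.Lib.DR.CV.V3
import Pool.Agent.Lib.DR.CV.C10
import Pool.Agent.Lib.DR.F.AllZ
import Pool.Agent.Lib.DR.G.SG

/-!
# THEOREM DR (`p = 2` ramified), without hypotheses (assembly: helper55)
-/

set_option autoImplicit false

noncomputable section

namespace Pool.Agent.DR

open Pool.Agent.DN

theorem zC10 : S_C10 :=
  sC10 GL.zT0 GL.zT1 GL.zT2 (aC4 DS.zR1) (aC6 DS.zR1) dD9 dE6 dE10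

theorem zV : S_V :=
  sV dO4 GL.zT0 (aC1 DS.zR1) (aC6 DS.zR1) (aC9o DS.zR1) (aC9e DS.zR1) zC10 dR1 dD2

theorem zF : S_F := dF zC10

theorem zG : S_G := G.aSG LS.zLS zV zF (sLw dO4)

/-- **THEOREM DR.** `n`, `t` with `Rmf n t` (`2` ramified in `K`): `μ = 0` at `p = 2` for all number fields in `Wf n t`. -/
theorem thmDR : ThmDR := PI.tDR_of zG

end Pool.Agent.DR
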