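import Pool.Agent.Lib.DR.Iface
import Pool.Agent.Lib.DS.IfaceC

/-!
# Theorem DR: the interface of parts T (tower at `P`), C (theta series, hidden symmetry) and of the input of part V

Author helper42. Every `S_...` is a statement which is proved by ONE part and used by others. Nothing is proved here.
`f` odd, `15 ∣ f`; the smoothing ideal `m` and the ideals `b` are prime to `2 f`; the modulus of the theta series is
`2 f`. `M` is a LEVEL: an ODD multiple of `lev f m R` (`dO n`, the odd part of `n`, takes the place of `D`). The theta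
series of modulus `2 f` transform under `Γ_0(32 M)` (`D (2 f)²` divides `32 dO n f²`), the combinations `etE` (values
at `r/4`) under `{(a b; c d) ∈ Γ_0(8 M), 4 ∣ b}`. `FM`, `FB`, `FR`, `IsG`, `vN`, `cM` are the ones of `DN/IfaceC.lean`.
`S_C1`, `S_C2`, `S_C3`, `S_C4`, `S_C6`, `S_C7`, `S_C8` are special cases of the statements of `DS/IfaceC.lean`.
-/

set_option autoImplicit false

open scoped Pointwise Topology
open Filter

noncomputable section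

namespace Pool.Agent.DR

open Pool.Agent.MuZ Pool.Agent.FW NumberField Pool.Agent.DN
open Pool.Agent.DI (io ofC io_inj exists_io io_ofC ofC_io VP MP UP TP ex sqr sqr_sq kap)

/-! ## Definitions -/

/-- The minimal level. -/
def lev {n t : ℕ} (f : ℕ) (m : Ideal (OO n t)) (R : Finset (Ideal (OO n t))) : ℕ :=
  dO n * f ^ 2 * (NI m * ∏ b ∈ R, NI b) ^ 3

/-- `M` is a level for `R`. -/
structure IsLv {n t : ℕ} (f : ℕ) (m : Ideal (OO n t)) (R : Finset (Ideal (OO n t))) (M : ℕ) : Prop where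
  odd : Odd M
  three : 3 ≤ M
  dvd : lev f m R ∣ M

/-- `M` is a level for `R` and for a system of representatives modulo `2 f`: then the functions `etaM (2 f) m (α b)`,
`b ∈ R`, `α ∈ tm2 f`, have the level `M` (they depend only on the class of `α b` modulo `2 f`). -/
structure IsLw {n t : ℕ} (f : ℕ) (m : Ideal (OO n t)) (R : Finset (Ideal (OO n t))) (M : ℕ) : Prop where
  lv : IsLv f m R M
  ex : ∃ R2 : Finset (Ideal (OO n t)), FR f R2 ∧ IsRC (2 * f) R2 ∧ IsLv f m R2 M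

/-- `b` is in the class of `pp b1` modulo `f`. (`E_b`, `rO b1 (pp b1)` depend only on the classes modulo `f`.) -/
structure PpR {n t : ℕ} (f : ℕ) (b b1 : Ideal (OO n t)) : Prop where
  fb : FB f b
  fb1 : FB f b1
  ray : Ray f b (pp n t * b1)

/-! ## Part T: the inertia group at `P` and the points of order `2^N` -/

/-- The ramification of `K`. -/
def S_T0 : Prop :=
  ∀ (n t : ℕ) [Rmf n t] (P : Ideal ZZ), Ab2 P →
    UP P (toO (pO n t) ^ 2 / 2) ∧ MP P (toO (pO n t)) ∧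
    (∃ τ ∈ P.inertia Gal(Om/ℚ), τ ∉ GK n t) ∧
    (∀ σ ∈ P.inertia Gal(Om/ℚ), MP P (σ (toO (pO n t)) / toO (pO n t) - 1)) ∧
    (∀ v : OO n t, Cop v 2 → UP P (toO v) ∧ MP P (toO v - 1)) ∧
    (∀ v ∈ pp n t, VP P (toO v / toO (pO n t))) ∧
    ∀ P' : Ideal ZZ, Ab2 P' → ∃ g ∈ GK n t, ∀ x : ZZ, x ∈ P' ↔ g • x ∈ P

/-- The group `P.inertia ∩ Gal(Om/K)` acts on the points of order `F0 2^N` (`F0` odd) as the group of the `α = 1`
modulo `F0`, prime to `2`. -/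
def S_T1 : Prop :=
  ∀ (n t : ℕ) [Rmf n t] (P : Ideal ZZ), Ab2 P → ∀ F0 N : ℕ, Odd F0 → 15 ∣ F0 →
    (∀ σ ∈ P.inertia Gal(Om/ℚ), σ ∈ GK n t → ∃ α : OO n t, (F0 : OO n t) ∣ α - 1 ∧ Cop α 2 ∧
      Psi σ (F0 * 2 ^ N) (sp α)) ∧
    ∀ α : OO n t, (F0 : OO n t) ∣ α - 1 → Cop α 2 →
      ∃ σ ∈ P.inertia Gal(Om/ℚ), σ ∈ GK n t ∧ Psi σ (F0 * 2 ^ N) (sp α)

/-- The trace over `P.inertia ∩ Gal(Om/K)` modulo the subgroup of level `2^N`: the different has the valuation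
`N - 1/2`. Second part: the trace over the subgroup of the `α = 1` modulo `2`: the different has the valuation `N - 1`. -/
def S_T2 : Prop :=
  ∀ (n t : ℕ) [Rmf n t] (P : Ideal ZZ), Ab2 P → ∀ (F0 N : ℕ) (A : Finset (OO n t))
    (s : OO n t → Gal(Om/ℚ)), Odd F0 → 15 ∣ F0 → 1 ≤ N → IsG F0 N A →
    (∀ α ∈ A, s α ∈ P.inertia Gal(Om/ℚ) ∧ s α ∈ GK n t ∧ Psi (s α) (F0 * 2 ^ N) (sp α)) → ∀ y : Om,
    (∀ σ ∈ P.inertia Gal(Om/ℚ), σ ∈ GK n t → Psi σ (F0 * 2 ^ N) (⊤ : Ideal (OO n t)) → σ y = y) →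
    VP P y →
      VP P ((∑ α ∈ A, s α y) / toO (pO n t) ^ (2 * N - 1)) ∧
      ∀ A1 : Finset (OO n t), (∀ α : OO n t, α ∈ A1 ↔ α ∈ A ∧ (2 : OO n t) ∣ α - 1) →
        VP P ((∑ α ∈ A1, s α y) / 2 ^ (N - 1))

/-! ## Part C -/

/-- Transformation under `Γ_0(32 M)`, on the values (modulus `2 f`). -/
def S_C1 : Prop :=
  ∀ (n t : ℕ) [Rmf n t] (f M : ℕ) (m b : Ideal (OO n t)), FM f m → FB f b → IsLv f m {b} M →
    ∀ (a b' c d : ℤ), G0 (32 * M) a b' c d → a ≠ 0 ∧ d ≠ 0 ∧ FB f (sp (a : OO n t) * b) ∧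
      ∀ r : ℚ, r.den.Coprime M → (c : ℚ) * r + d ≠ 0 ∧
      etaM (2 * f) m b ((a * r + b') / (c * r + d)) =
        (eps n t d : Om) * (rO b (sp (a : OO n t) * b) / a) *
          (etaM (2 * f) m (sp (a : OO n t) * b) r - etaM (2 * f) m (sp (a : OO n t) * b) 0) +
        etaM (2 * f) m b (b' / d)

/-- Transformation under `Γ_1(32 M)`, on the upper half plane. -/
def S_C2 : Prop :=
  ∀ (n t : ℕ) [Rmf n t] (f M : ℕ) (m b : Ideal (OO n t)), FM f m → FB f b → IsLv f m {b} M →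
    ∀ (a b' c d : ℤ), G0 (32 * M) a b' c d → (32 * M : ℤ) ∣ d - 1 → ∀ z : ℂ, 0 < z.im →
      ThM (2 * f) m b ((a * z + b') / (c * z + d)) =
        ThM (2 * f) m b z + io (etaM (2 * f) m b (b' / d) - etaM (2 * f) m b 0)

/-- Expansions at all cusps. -/
def S_C3 : Prop :=
  ∀ (n t : ℕ) [Rmf n t] (f M : ℕ) (m b : Ideal (OO n t)), FM f m → FB f b → IsLv f m {b} M →
    ∀ (a b' c d : ℤ), a * d - b' * c = 1 →
    ∃ (c0 : ℂ) (cf : ℕ → ℂ) (C : ℝ), (∀ j, ‖cf j‖ ≤ C * (j + 1) ^ 3) ∧ ∀ z : ℂ, 0 < z.im →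
      HasSum (fun j : ℕ => cf j * ex ((j + 1) * z / (32 * M : ℕ)))
        (ThM (2 * f) m b ((a * z + b') / (c * z + d)) - c0)

/-- The values at `c/q`, `q` prime to `N m`: the limit exists, it is algebraic; the formula for `b` prime to `2 f q`
(then `(1 + 2 f γ)/(2 f q)`, `γ ∈ O/q`, are the `z` modulo `Lam b` with `q z = 1/(2 f)`). -/
def S_C4 : Prop :=
  ∀ (n t : ℕ) [Rmf n t] (f : ℕ) (m b : Ideal (OO n t)), FM f m → FB f b → ∀ (c : ℤ) (q : ℕ), 0 < q →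
    q.Coprime (NI m) →
    Tendsto (fun y : ℝ => ThM (2 * f) m b (((c / q : ℚ) : ℂ) + y * Complex.I)) (𝓝[>] 0)
      (𝓝 (hM (2 * f) m b (c / q))) ∧
    io (etaM (2 * f) m b (c / q)) = hM (2 * f) m b (c / q) ∧
    (PrI b q → etaM (2 * f) m b (c / q) = (1 / q : Om) *
      ∑ x ∈ Finset.range q, ∑ y ∈ Finset.range q,
        zet q ^ (c * (NI m * NI b * Nm (⟨1 + 2 * f * x, 2 * f * y⟩ : OO n t))) *
          gO m b (toC (⟨1 + 2 * f * x, 2 * f * y⟩ : OO n t) / (2 * f * q : ℕ)))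

/-- Class functions, period, quarter period, complex conjugation. -/
def S_C6 : Prop :=
  ∀ (n t : ℕ) [Rmf n t] (f : ℕ) (m b : Ideal (OO n t)), FM f m → FB f b →
    (∀ b' : Ideal (OO n t), FB f b' → Ray (2 * f) b b' →
      (∀ z : ℂ, ThM (2 * f) m b z = ThM (2 * f) m b' z) ∧
      ∀ r : ℚ, etaM (2 * f) m b r = etaM (2 * f) m b' r) ∧
    (∀ r : ℚ, etaM (2 * f) m b (r + 1) = etaM (2 * f) m b r ∧
      etaM (2 * f) m b (r + 1 / 2) = -etaM (2 * f) m b r) ∧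
    (∀ z : ℂ, 0 < z.im → ThM (2 * f) m b (z + 1 / 4) = Complex.I ^ NI (m * b) * ThM (2 * f) m b z) ∧
    (∀ r : ℚ, r.den.Coprime (NI m) →
      etaM (2 * f) m b (r + 1 / 4) = zet 4 ^ NI (m * b) * etaM (2 * f) m b r) ∧
    (∀ z : ℂ, (starRingEnd ℂ) (ThM (2 * f) m b z) =
      ThM (2 * f) (cjI m) (cjI b) (-(starRingEnd ℂ) z)) ∧
    ∀ c : Gal(Om/ℚ), (∀ x : Om, io (c x) = (starRingEnd ℂ) (io x)) → ∀ r : ℚ,
      r.den.Coprime (NI m) → c (etaM (2 * f) m b r) = etaM (2 * f) (cjI m) (cjI b) (-r)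

/-- Holomorphy; the `q`-expansion; the finite sets `vN`; the exponents are congruent to `N(m b)` modulo `4`; the
coefficients are divisible by `2` at the primes above `2`. -/
def S_C7 : Prop :=
  ∀ (n t : ℕ) [Rmf n t] (f : ℕ) (m b : Ideal (OO n t)), FM f m → FB f b →
    DifferentiableOn ℂ (ThM (2 * f) m b) {z | 0 < z.im} ∧
    (∀ (j : ℕ) (v : ℂ), v ∈ vN (2 * f) (m * b) j ↔
      v - 1 / (2 * f : ℕ) ∈ Lam (m * b) ∧ ((2 * f : ℕ) : ℝ) ^ 2 * NI (m * b) * ‖v‖ ^ 2 = j) ∧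
    (∀ j : ℕ, ¬ ((4 : ℤ) ∣ (j : ℤ) - NI (m * b)) → vN (2 * f) (m * b) j = ∅) ∧
    (∃ C : ℝ, ∀ j : ℕ, ‖cM (2 * f) m b j‖ ≤ C * (j + 1) ^ 2) ∧
    (∀ j : ℕ, io (ofC (cM (2 * f) m b j)) = cM (2 * f) m b j ∧
      ∀ P : Ideal ZZ, Ab2 P → TP P 2 (ofC (cM (2 * f) m b j))) ∧
    ∀ z : ℂ, 0 < z.im → HasSum (fun j : ℕ => cM (2 * f) m b j / fr b * ex (j * z)) (ThM (2 * f) m b z)

/-- The Galois action on the values. -/
def S_C8 : Prop :=
  ∀ (n t : ℕ) [Rmf n t] (f : ℕ) (m b : Ideal (OO n t)), FM f m → FB f b → ∀ r : ℚ,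
    r.den.Coprime (NI m) → ∀ τ ∈ GK n t, ∀ a : Ideal (OO n t), Psi τ (2 * f) a →
      τ (etaM (2 * f) m b r) = etaM (2 * f) m (a * b) r

/-- **The hidden symmetry, `n` odd** (disc `4`): `T` commutes with `U = (1 0; M 1)` modulo `2`. (Checked
numerically for `n = 1, 5, 13`.) -/
def S_C9o : Prop :=
  ∀ (n t : ℕ) [Rmf n t] (f M : ℕ) (m b b1 : Ideal (OO n t)), n % 2 = 1 → FM f m →
    PpR f b b1 → IsLv f m {b, b1} M → ∀ r : ℚ, r.den.Coprime M →
      (M : ℚ) * r + 1 ≠ 0 ∧ (M : ℚ) * (r + 1) + 1 ≠ 0 ∧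
      etE f m b ((r + 1) / (M * (r + 1) + 1)) - etE f m b (r / (M * r + 1)) =
        -2 * rO (pp n t * b1) b1 * etE f m b1 (2 * r)

/-- **The hidden symmetry, `n` even** (disc `8`; Atkin, Lehner): `U = (1 0; M 1)` takes `E_b1` into
`E_b((Y + c)/2)` for `c = -M` modulo `4`, up to a factor of valuation `-1/2` and a constant. (Checked numerically
for `n = 2, 6, 10, 14` and `N(b) = 1, 3, 5, 7` modulo `8`; `κ pO / √(n/2)` is a fourth root of unity; it may depend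
on `b`.) -/
def S_C9e : Prop :=
  ∀ (n t : ℕ) [Rmf n t] (f M : ℕ) (m b b1 : Ideal (OO n t)), n % 2 = 0 → FM f m →
    PpR f b b1 → IsLv f m {b, b1} M → ∀ c : ℤ, (4 : ℤ) ∣ M + c → ∃ κ : Om,
      (∀ P : Ideal ZZ, Ab2 P → MP P (κ * toO (pO n t) - 1)) ∧
      ∀ r : ℚ, r.den.Coprime M → (M : ℚ) * r + 1 ≠ 0 ∧
        etE f m b1 (r / (M * r + 1)) =
          κ * rO b1 (pp n t * b1) * (etE f m b ((r + c) / 2) - etE f m b (c / 2)) + etE f m b1 0

/-- Integrality at the primes above `2`: `(pO/2) E_b(r)` is integral and fixed by the elements of the inertia group in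
`Gal(Om/K)`; the values `η` are integral. -/
def S_C10 : Prop :=
  ∀ (n t : ℕ) [Rmf n t] (f M : ℕ) (m b : Ideal (OO n t)), FM f m → FB f b → IsLv f m {b} M →
    ∀ P : Ideal ZZ, Ab2 P → ∀ r : ℚ, r.den.Coprime M →
      VP P (toO (pO n t) / 2 * etE f m b r) ∧ VP P (etaM (2 * f) m b r) ∧
      ∀ σ ∈ P.inertia Gal(Om/ℚ), σ ∈ GK n t → σ (etE f m b r) = etE f m b r

/-! ## The input of part V -/

/-- Levels exist. -/
def S_Lw : Prop :=
  ∀ (n t : ℕ) [Rmf n t] (f : ℕ) (m : Ideal (OO n t)) (R : Finset (Ideal (OO n t))), FM f m → FR f R →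
    ∃ M : ℕ, IsLw f m R M

/-- **Part V.** The functions `xs` are integral; if `xs` is constant modulo `P` on `ℤ[1/2]` then it is constant on
the `Γ_1(M)`-orbit of `0` (no condition on `χ`). -/
def S_V : Prop :=
  ∀ (n t : ℕ) [Rmf n t] (f M : ℕ) (m : Ideal (OO n t)) (R : Finset (Ideal (OO n t))), FM f m → FR f R →
    IsRC f R → IsLw f m R M → ∀ χ : Ideal (OO n t) → Om, IsChi (2 * f) χ → ∀ P : Ideal ZZ, Ab2 P →
    (∀ r : ℚ, r.den.Coprime M → VP P (xs f m R χ r)) ∧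
    ((∀ (c : ℤ) (j : ℕ), MP P (xs f m R χ (c / 2 ^ j) - xs f m R χ 0)) →
      ∀ a b c d : ℤ, G0 M a b c d → (M : ℤ) ∣ d - 1 → MP P (xs f m R χ (b / d) - xs f m R χ 0))

end Pool.Agent.DR
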