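import Pool.Agent.Lib.DN.Defs

/-!
# Theorem DR (`p = 2`, `2` ramified in `K`): definitions (author helper42)

All definitions of `DN/Defs.lean` are used as they are (the ring `O = ℤ[w]`, `w ^ 2 = t w - n`; the lattices `Lam b`; the
model `X`, `W`, `A1`, `A3` with the marked points `1/3`, `± 1/5`; `Psi`; the smoothed functions; the theta series;
`Lf`, `Ln`, `Mf`, `Mn`; the elliptic units). Here `t = 0`, `w ^ 2 = -n`, `n` squarefree, `n` not `3` modulo `4`.
`2 = pp ^ 2`; `pO = w` (`n` even), `pO = 1 + w` (`n` odd) has the valuation `1/2` at the primes above `2`.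
`f` is odd and divisible by `15`; all characters have odd order: they are characters of the ray class group modulo `f`,
viewed as characters modulo `2 f`.
-/

set_option autoImplicit false

open scoped Pointwise Topology
open Filter

noncomputable section

namespace Pool.Agent.DR

open Pool.Agent.MuZ Pool.Agent.FW NumberField Pool.Agent.DN
open Pool.Agent.DI (io ofC io_inj exists_io io_ofC ofC_io VP MP UP TP ex sqr sqr_sq kap)

/-- `2` is ramified. -/
class Rmf (n t : ℕ) : Prop extends SqN n t where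
  zero : t = 0

/-- The element `pO = (n mod 2) + w`; its norm is `2` modulo `4`. -/
def pO (n t : ℕ) : OO n t := ⟨(n % 2 : ℕ), 1⟩

/-- The prime ideal above `2`. -/
def pp (n t : ℕ) : Ideal (OO n t) := Ideal.span {2, pO n t}

/-- Elements congruent to `1` modulo `f` and to the two units modulo `2` (`1` and `1 + pO`). -/
def tm2 (n t f : ℕ) : Finset (OO n t) := {1, ⟨1 - f * (n % 2 : ℕ), f⟩}

/-- The odd part of `n` (`n` squarefree). -/
def dO (n : ℕ) : ℕ := if n % 2 = 0 then n / 2 else n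

variable {n t : ℕ}

/-- `E_b(r) = ∑ η_(α b)(r/4)`, the sum over `α ∈ tm2 f`, `η` of modulus `2 f`. -/
def etE (f : ℕ) (m b : Ideal (OO n t)) (r : ℚ) : Om :=
  ∑ α ∈ tm2 n t f, etaM (2 * f) m (sp α * b) (r / 4)

/-- `x(r) = (pO/2) ∑ χ(b) (fr(b)/fr(1)) (E_b(r) + E_b(-r))`, the sum over `R`, a system of representatives of the
ray class group modulo `f`, of ideals prime to `2 f`. -/
def xs (f : ℕ) (m : Ideal (OO n t)) (R : Finset (Ideal (OO n t))) (χ : Ideal (OO n t) → Om) (r : ℚ) : Om :=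
  toO (pO n t) / 2 * ∑ b ∈ R, χ b * rO ⊤ b * (etE f m b r + etE f m b (-r))

/-- `χ` is not invariant under complex conjugation. -/
def Ncj (χ : Ideal (OO n t) → Om) : Prop := ∃ b : Ideal (OO n t), χ (cjI b) ≠ χ b

/-- **The semilinear action.** `τ` (not in `Gal(Om/K)`) acts on the `N`-torsion of all the curves as complex
conjugation from `ℂ / Lam b` to `ℂ / Lam (conj b)`, followed by the identity map to `ℂ / Lam (a conj b)`. -/
structure PsiC (τ : Gal(Om/ℚ)) (N : ℕ) (a : Ideal (OO n t)) : Prop where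
  ne : a ≠ ⊥
  cop : PrI a (15 * N)
  a1 : ∀ b : Ideal (OO n t), b ≠ ⊥ → PrI b 15 → τ (a1O b) = a1O (a * cjI b)
  a3 : ∀ b : Ideal (OO n t), b ≠ ⊥ → PrI b 15 → τ (a3O b) = a3O (a * cjI b)
  xx : ∀ b : Ideal (OO n t), b ≠ ⊥ → PrI b 15 → ∀ z : ℂ, (N : ℂ) * z ∈ Lam b →
    τ (xO b z) = xO (a * cjI b) ((starRingEnd ℂ) z)

/-- **Theorem DR.** -/
def ThmDR : Prop :=
  ∀ (n t : ℕ) [Rmf n t] (F : IntermediateField ℚ Om), FiniteDimensional ℚ F → F ≤ Wf n t →
    XFinGen 2 (cyc 2 F)

end Pool.Agent.DR
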