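import Pool.Agent.Lib.DR.Defs
import Pool.Agent.Lib.DN.Iface

/-!
# Theorem DR: the interface (parts O, L, R, D, E), author helper42

Every `S_...` is a statement which is proved by ONE part and used by others. Nothing is proved here.
`[Rmf n t]`: `2` is ramified (`t = 0`). The definitions and the statements `S_O1` - `S_O9` (without `S_O4`), `S_L1` - `S_L5`,
`S_B1` - `S_B16` of `DN/Iface.lean` hold for all imaginary quadratic fields (`[SqN n t]`) and are used as they are (they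
are proved: `DN.aO1`, .., `DN.aL1`, .., `DN.aB1`, ..). The statements below with the name of a statement of `DN/Iface.lean`
are the same statements for `[Rmf n t]`, unless the docstring says CHANGED. Inside the namespace `Pool.Agent.DR` the names
`S_R1`, `S_D1`, .. are the ones of this file.
A false or awkward statement: mail helper42 at once.
-/

set_option autoImplicit false

open scoped Pointwise Topology nonZeroDivisors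
open Filter

noncomputable section

namespace Pool.Agent.DR

open Pool.Agent.MuZ Pool.Agent.FW NumberField IsDedekindDomain Pool.Agent.DN
open Pool.Agent.DI (io ofC io_inj exists_io io_ofC ofC_io VP MP UP TP ex sqr sqr_sq kap)

/-! ## Part O: the prime above `2` -/

/-- CHANGED. The prime ideal `pp` above `2`; `n % 4 = 1` or `n % 4 = 2`. -/
def S_O4 : Prop :=
  ∀ (n t : ℕ) [Rmf n t], (n % 4 = 1 ∨ n % 4 = 2) ∧ (pp n t).IsPrime ∧ NI (pp n t) = 2 ∧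
    pp n t * pp n t = sp (2 : OO n t) ∧ cjI (pp n t) = pp n t ∧
    (∃ c : Ideal (OO n t), c ≠ ⊥ ∧ PrI c 2 ∧ sp (pO n t) = pp n t * c) ∧
    (∀ v : OO n t, Cop v 2 ↔ v ∉ pp n t) ∧ (∀ v : OO n t, Cop v 2 ↔ ¬ (2 : ℤ) ∣ Nm v) ∧
    (∀ v : OO n t, v ∈ pp n t ↔ (2 : OO n t) ∣ v ∨ (2 : OO n t) ∣ v - pO n t) ∧
    (∀ v : OO n t, (2 : OO n t) ∣ v ↔ (2 : ℤ) ∣ v.re ∧ (2 : ℤ) ∣ v.im) ∧
    (∀ v : OO n t, Cop v 2 ↔ (2 : OO n t) ∣ v - 1 ∨ (2 : OO n t) ∣ v - (1 + pO n t)) ∧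
    (∀ v : OO n t, Cop v 2 → (2 : OO n t) ∣ v ^ 2 - 1) ∧ (∀ v : OO n t, (2 : OO n t) ∣ v - cjO v) ∧
    (∀ v : OO n t, Cop v 2 → n % 4 = 1 → (4 : ℤ) ∣ Nm v - 1) ∧
    (∀ v : OO n t, Cop v 2 → n % 4 = 2 → (8 : ℤ) ∣ Nm v - 1 ∨ (8 : ℤ) ∣ Nm v - (1 + n)) ∧
    ∀ a : Ideal (OO n t), a ≠ ⊥ → ∃ (j : ℕ) (a' : Ideal (OO n t)), a' ≠ ⊥ ∧ PrI a' 2 ∧ a = pp n t ^ j * a'

/-! ## Part L -/

/-- CHANGED (`S_L6`, second half). There is only one point `T` of order `pp`, modulo `Lam b`; `pO T'` is equivalent to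
it for every point `T'` of exact order two. -/
def S_L6 : Prop :=
  ∀ (n t : ℕ) [Rmf n t] (b : Ideal (OO n t)), b ≠ ⊥ →
    (∃ T ∈ Lam (pp n t * b), T ∉ Lam b) ∧
    (∀ T ∈ Lam (pp n t * b), ∀ T' ∈ Lam (pp n t * b), T ∉ Lam b → T' ∉ Lam b → T - T' ∈ Lam b) ∧
    (∀ T ∈ Lam (pp n t * b), 2 * T ∈ Lam b) ∧
    (∀ T : ℂ, 2 * T ∈ Lam b → toC (pO n t) * T ∈ Lam (pp n t * b)) ∧
    (∀ T : ℂ, 2 * T ∈ Lam b → T ∉ Lam (pp n t * b) → toC (pO n t) * T ∉ Lam b) ∧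
    ∀ (j : ℕ) (T : ℂ), T ∈ Lam (pp n t ^ (2 * j) * b) ↔ (2 : ℂ) ^ j * T ∈ Lam b

/-! ## Part R: algebraicity, potential good reduction -/

/-- The numbers `A1`, `A3`, `X(z)`, `W(z)` are algebraic; complex conjugation on `Om`; the framing and `g`. -/
def S_R1 : Prop :=
  (∀ (n t : ℕ) [Rmf n t],
    (∀ b : Ideal (OO n t), G15 b → io (a1O b) = A1 b ∧ io (a3O b) = A3 b ∧
      (∀ z : ℂ, Tor n t z → io (xO b z) = XC b z ∧ io (vO b z) = WC b z) ∧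
      ∀ b' : Ideal (OO n t), G15 b' → io (rO b b') = fr b' / fr b ∧ rO b b' ≠ 0) ∧
    ∀ m b : Ideal (OO n t), m ≠ ⊥ → G15 b → PrI m 2 → PrI m 15 → ∀ z : ℂ, Tor n t z →
      z ∉ Lam (m * b) → io (gO m b z) = gC m b z) ∧
  ∃ c : Gal(Om/ℚ), (∀ x : Om, io (c x) = (starRingEnd ℂ) (io x)) ∧
    ∀ (n t : ℕ) [Rmf n t] (b : Ideal (OO n t)), G15 b →
      c (a1O b) = a1O (cjI b) ∧ c (a3O b) = a3O (cjI b) ∧
      ∀ z : ℂ, Tor n t z → c (xO b z) = xO (cjI b) ((starRingEnd ℂ) z) ∧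
        c (vO b z) = vO (cjI b) ((starRingEnd ℂ) z)

/-- CHANGED. Good reduction of the model `X`: above `2` (supersingular, `A1` has the valuation `1/2`) and at almost all
primes. -/
def S_R2 : Prop :=
  ∀ (n t : ℕ) [Rmf n t],
    (∀ P : Ideal ZZ, Ab2 P → GQ n t P ∧ ∀ b : Ideal (OO n t), G15 b → UP P (a1O b ^ 2 / 2)) ∧
    ∃ B : ℕ, 0 < B ∧ ∀ Q : Ideal ZZ, Npr Q → ¬ MP Q (B : Om) → GQ n t Q

/-- Injectivity modulo almost all primes. -/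
def S_R3 : Prop :=
  ∀ (n t : ℕ) [Rmf n t], ∃ B : ℕ, 0 < B ∧ ∀ Q : Ideal ZZ, Npr Q → ¬ MP Q (B : Om) →
    ∀ b b' : Ideal (OO n t), G15 b → G15 b' → MP Q (a1O b - a1O b') → MP Q (a3O b - a3O b') →
      a1O b = a1O b' ∧ a3O b = a3O b'

/-! ## Part D: reduction -/

/-- The kernel of reduction, at the primes of good reduction of the model. -/
def S_D1 : Prop :=
  ∀ (n t : ℕ) [Rmf n t] (Q : Ideal ZZ), GQ n t Q → ∀ b : Ideal (OO n t), G15 b →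
    (∀ z z' : ℂ, IK Q b z → IK Q b z' → IK Q b (z + z')) ∧ (∀ z ∈ Lam b, IK Q b z) ∧
    (∀ (v : OO n t) (z : ℂ), IK Q b z → IK Q b (toC v * z)) ∧
    (∀ (a : Ideal (OO n t)) (z : ℂ), a ≠ ⊥ → PrI a 15 → IK Q b z → IK Q (a * b) z) ∧
    (∀ z : ℂ, IK Q b z → Qp Q b z) ∧
    (∀ z z' : ℂ, Tor n t z → ¬ IK Q b z → IK Q b z' → MP Q (xO b (z + z') - xO b z)) ∧
    (∀ z z' : ℂ, Tor n t z → Tor n t z' → ¬ IK Q b z → ¬ IK Q b z' → MP Q (xO b z - xO b z') →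
      IK Q b (z + z') ∨ IK Q b (z - z'))

/-- CHANGED. The primes above `2`: supersingular reduction, Kronecker's congruence for `pp`, units. -/
def S_D2 : Prop :=
  ∀ (n t : ℕ) [Rmf n t] (P : Ideal ZZ), Ab2 P → ∀ b : Ideal (OO n t), G15 b →
    (∀ (z : ℂ) (j : ℕ), (2 : ℂ) ^ j * z ∈ Lam b → IK P b z) ∧
    (∀ z : ℂ, Tor n t z → ¬ IK P b z → ¬ IK P (pp n t * b) z ∧
      MP P (xO (pp n t * b) z - xO b z ^ 2)) ∧ MP P (a3O (pp n t * b) - a3O b ^ 2) ∧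
    (∀ z : ℂ, Tor n t z → ¬ IK P b z → VP P (xO b z) ∧ UP P (vO b z) ∧
      MP P (vO b z - a3O b)) ∧
    (∀ z : ℂ, Tor n t z → ¬ Qp P b z → ¬ IK P b z) ∧
    (∀ z z' : ℂ, Tor n t z → Tor n t z' → ¬ IK P b z → ¬ IK P b z' → ¬ Qp P b (z + z') →
      ¬ Qp P b (z - z') → UP P (xO b z - xO b z')) ∧
    (∀ a : Ideal (OO n t), a ≠ ⊥ → PrI a 2 → PrI a 15 → UP P (rO b (a * b))) ∧
    UP P (rO b (pp n t * b) ^ 2 / 2)

/-- Good primes above a prime ideal of degree one: Kronecker's congruence. -/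
def S_D3 : Prop :=
  ∀ (n t : ℕ) [Rmf n t] (q : Ideal (OO n t)) (l : ℕ), Deg1 q l → l.Coprime 30 → ∀ Q : Ideal ZZ,
    GQ n t Q → Abv Q q → ∀ b : Ideal (OO n t), G15 b →
      (∀ u ∈ Lam (q * b), IK Q b u) ∧ MP Q (a1O (q * b) - a1O b ^ l) ∧
      MP Q (a3O (q * b) - a3O b ^ l) ∧
      ∀ z : ℂ, Tor n t z → ¬ IK Q b z → ¬ IK Q (q * b) z ∧ MP Q (xO (q * b) z - xO b z ^ l)

/-- The points of order `q` in the kernel have the same valuation: for `q = (la)`, `u ∈ Lam (q b)`,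
`u ∉ Lam b`: `la X(u) ^ ((l - 1)/2)` is a unit. -/
def S_D4 : Prop :=
  ∀ (n t : ℕ) [Rmf n t] (la : OO n t) (l : ℕ), Deg1 (sp la) l → l.Coprime 30 → ∀ Q : Ideal ZZ,
    GQ n t Q → MP Q (toO la) → ∀ b : Ideal (OO n t), G15 b → ∀ u : ℂ, toC la * u ∈ Lam b →
      u ∉ Lam b → UP Q (toO la * xO b u ^ ((l - 1) / 2))

/-- Theta units, at all primes. -/
def S_D5 : Prop :=
  ∀ (n t : ℕ) [Rmf n t] (m b : Ideal (OO n t)), m ≠ ⊥ → G15 b → PrI m 2 → PrI m 15 →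
    ∀ Q : Ideal ZZ, Npr Q → ∀ z : ℂ, Tor n t z → (∀ u ∈ Lam (m * b), ¬ Qp Q b (z + u)) →
      UP Q (Theta m b z)

/-- Theta units: congruences, at the good primes. -/
def S_D6 : Prop :=
  ∀ (n t : ℕ) [Rmf n t] (m b : Ideal (OO n t)), m ≠ ⊥ → G15 b → PrI m 2 → PrI m 15 →
    ∀ Q : Ideal ZZ, GQ n t Q → ¬ MP Q 2 → ¬ Abv Q m → ∀ z : ℂ, Tor n t z →
    (∀ u ∈ Lam (m * b), ¬ Qp Q b (z + u)) →
    (∀ z' : ℂ, IK Q b z' → MP Q (Theta m b (z + z') - Theta m b z)) ∧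
    ∀ (q : Ideal (OO n t)) (l : ℕ), Deg1 q l → l.Coprime 30 → Abv Q q →
      MP Q (Theta m (q * b) z - Theta m b z ^ l)

/-- Distribution of `Theta`: exact for odd ideals, up to a sign for `2`. -/
def S_D7 : Prop :=
  ∀ (n t : ℕ) [Rmf n t] (m b : Ideal (OO n t)), m ≠ ⊥ → G15 b → PrI m 2 → PrI m 15 →
    (∀ (l : Ideal (OO n t)) (R : Finset ℂ), l ≠ ⊥ → PrI l 2 → PrI l 15 → l ⊔ m = ⊤ → IsSys l b R →
      ∀ z : ℂ, Tor n t z → z ∉ Lam (l * m * b) →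
        ∏ v ∈ R, Theta m b (z + v) = Theta m (l * b) z) ∧
    ∃ s : ℤ, (s = 1 ∨ s = -1) ∧ ∀ R : Finset ℂ, IsSys (sp 2) b R → ∀ z : ℂ, Tor n t z →
      2 * z ∉ Lam (m * b) → ∏ v ∈ R, Theta m b (z + v) = s * Theta m b (2 * z)

/-- `Theta` is a well defined even function. -/
def S_D8 : Prop :=
  ∀ (n t : ℕ) [Rmf n t] (m b : Ideal (OO n t)), m ≠ ⊥ → G15 b → PrI m 2 → PrI m 15 →
    (∀ S : Finset ℂ, IsHalf m b S → ∀ z : ℂ,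
      ∏ u ∈ S, (W2 b u * ((xO b z - xO b u) ^ 3)⁻¹) ^ 3 = Theta m b z) ∧
    (∀ z : ℂ, Theta m b (-z) = Theta m b z ∧ ∀ l ∈ Lam b, Theta m b (z + l) = Theta m b z) ∧
    (∀ (α : OO n t) (z : ℂ), α ≠ 0 → Cop α 15 → Tor n t z →
      Theta m (sp α * b) z = Theta m b (toC α * z)) ∧
    ∀ z : ℂ, Tor n t z → z ∉ Lam (m * b) → Theta m b z ≠ 0

/-- `g` at the primes above `2`. -/
def S_D9 : Prop :=
  ∀ (n t : ℕ) [Rmf n t] (P : Ideal ZZ), Ab2 P → ∀ m b : Ideal (OO n t), m ≠ ⊥ → G15 b →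
    PrI m 2 → PrI m 15 → ∀ z : ℂ, Tor n t z → (∀ u ∈ Lam (m * b), ¬ Qp P b (z + u)) →
      VP P (gO m b z) ∧ gO m b z = ∑ u ∈ hs m b, vO b z * (xO b z - xO b u)⁻¹

/-- CHANGED. The valuations at the points of exact order `pp ^ (j + 1)`: `X(z + d) - X(z)` has the valuation
`1/2 ^ (j + 1)`; `X` has the valuation `-1` at the point of order `pp`. -/
def S_D10 : Prop :=
  ∀ (n t : ℕ) [Rmf n t] (P : Ideal ZZ), Ab2 P → ∀ b : Ideal (OO n t), G15 b →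
    (∀ (j : ℕ) (z d : ℂ), Tor n t z → ¬ IK P b z → d ∈ Lam (pp n t ^ (j + 1) * b) →
      d ∉ Lam (pp n t ^ j * b) → UP P ((xO b (z + d) - xO b z) ^ 2 ^ (j + 1) / 2)) ∧
    ∀ T ∈ Lam (pp n t * b), T ∉ Lam b → UP P (2 * xO b T)

/-! ## Part E: Galois action -/

/-- The main theorem of complex multiplication, for `Gal(Om/K)`; `15 ∣ N`. -/
def S_E1 : Prop :=
  ∀ (n t : ℕ) [Rmf n t] (N : ℕ), 0 < N → 15 ∣ N →
    (∀ τ ∈ GK n t, ∃ a : Ideal (OO n t), Psi τ N a) ∧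
    (∀ (τ : Gal(Om/ℚ)) (a a' : Ideal (OO n t)), Psi τ N a → Psi τ N a' → Ray N a a') ∧
    (∀ (τ : Gal(Om/ℚ)) (a a' : Ideal (OO n t)), Psi τ N a → Ray N a a' → Psi τ N a') ∧
    (∀ (τ τ' : Gal(Om/ℚ)) (a a' : Ideal (OO n t)), Psi τ N a → Psi τ' N a' → Psi (τ * τ') N (a * a')) ∧
    ∀ (τ : Gal(Om/ℚ)) (M : ℕ) (a : Ideal (OO n t)), Psi τ N a → M ∣ N → 15 ∣ M → Psi τ M a

/-- Frobenius elements, almost all degree one primes. -/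
def S_E2 : Prop :=
  ∀ (n t : ℕ) [Rmf n t] (N : ℕ), 0 < N → 15 ∣ N → ∃ B : ℕ, 0 < B ∧ ∀ (q : Ideal (OO n t)) (l : ℕ),
    Deg1 q l → l.Coprime B → ∀ Q : Ideal ZZ, Npr Q → Abv Q q → ∀ τ ∈ GK n t, Fro Q l τ → Psi τ N q

/-- CHANGED. Frobenius elements at the primes above `2`. -/
def S_E3 : Prop :=
  ∀ (n t : ℕ) [Rmf n t] (P : Ideal ZZ) (τ : Gal(Om/ℚ)), Ab2 P → τ ∈ GK n t → Fro P 2 τ →
    ∀ N : ℕ, Odd N → 15 ∣ N → Psi τ N (pp n t)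

/-- Inertia. -/
def S_E4 : Prop :=
  ∀ (n t : ℕ) [Rmf n t] (Q : Ideal ZZ), Npr Q → ∀ τ ∈ GK n t, τ ∈ Q.inertia Gal(Om/ℚ) →
    (MP Q 2 → ∀ N : ℕ, Odd N → 15 ∣ N → Psi τ N (⊤ : Ideal (OO n t))) ∧
    ∀ (v : OO n t) (b δ : Ideal (OO n t)) (N : ℕ), 0 < N → 15 ∣ N → G15 b → δ ≠ ⊥ →
      sp (N : OO n t) ≤ δ → ¬ Abv Q δ → (15 : OO n t) ∣ v - 1 → Psi τ N (sp v) →
      ∀ z ∈ Lam (δ * b), xO b (toC v * z) = xO b z

/-- The cyclotomic character. -/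
def S_E6 : Prop :=
  ∀ (n t : ℕ) [Rmf n t] (τ : Gal(Om/ℚ)) (N : ℕ) (a : Ideal (OO n t)), τ ∈ GK n t → 0 < N → 15 ∣ N →
    Psi τ N a → ∀ ζ : Om, ζ ^ N = 1 → τ ζ = ζ ^ NI a

/-- Surjectivity. -/
def S_E7 : Prop :=
  ∀ (n t : ℕ) [Rmf n t] (N : ℕ) (a : Ideal (OO n t)), 0 < N → 15 ∣ N → a ≠ ⊥ → PrI a N →
    ∃ τ ∈ GK n t, Psi τ N a

/-- Galois theory for `FixI`. -/
def S_E8 : Prop :=
  ∀ (n t : ℕ) [Rmf n t] (N : ℕ) (H : Ideal (OO n t) → Prop), 0 < N → 15 ∣ N → H ⊤ →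
    (∀ a, H a → a ≠ ⊥ ∧ PrI a N) → (∀ a a', H a → Ray N a a' → H a') →
    (∀ a a', H a → H a' → H (a * a')) →
    FiniteDimensional ℚ (FixI N H) ∧ KQ n t ≤ FixI N H ∧
    ∀ τ ∈ GK n t, ∀ a : Ideal (OO n t), Psi τ N a → ((∀ x ∈ FixI N H, τ x = x) ↔ H a)

/-- CHANGED. The fields are normal over `ℚ`; `Mf` is unramified over `K` at `pp`. -/
def S_E9 : Prop :=
  ∀ (n t : ℕ) [Rmf n t] (f : ℕ), Odd f → 15 ∣ f →
    (∀ τ : Gal(Om/ℚ), ∀ x ∈ Mf n t f, τ x ∈ Mf n t f) ∧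
    (∀ (N : ℕ) (τ : Gal(Om/ℚ)), 1 ≤ N → ∀ x ∈ Mn n t f N, τ x ∈ Mn n t f N) ∧
    (∀ τ : Gal(Om/ℚ), ∀ x ∈ Lf n t f, τ x ∈ Lf n t f) ∧
    (∀ (N : ℕ) (τ : Gal(Om/ℚ)), 1 ≤ N → ∀ x ∈ Ln n t f N, τ x ∈ Ln n t f N) ∧
    (∀ P : Ideal ZZ, Ab2 P → ∀ τ ∈ P.inertia Gal(Om/ℚ), τ ∈ GK n t → ∀ x ∈ Mf n t f, τ x = x) ∧
    Lf n t f ≤ Mf n t f ∧ ∀ N : ℕ, 1 ≤ N → Ln n t f N ≤ Mn n t f N

/-- Galois action on `W`, the framing, `g` and `Theta`. -/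
def S_E10 : Prop :=
  ∀ (n t : ℕ) [Rmf n t] (τ : Gal(Om/ℚ)) (N : ℕ) (a : Ideal (OO n t)), 0 < N → 15 ∣ N → Psi τ N a →
    (∀ b : Ideal (OO n t), G15 b →
      (∀ z : ℂ, (N : ℂ) * z ∈ Lam b → τ (vO b z) = vO (a * b) z) ∧
      ∀ c : Ideal (OO n t), G15 c → τ (rO b c) = rO (a * b) (a * c)) ∧
    ∀ m b : Ideal (OO n t), m ≠ ⊥ → G15 b → PrI m 2 → PrI m 15 → NI m ∣ N →
      ∀ z : ℂ, (N : ℂ) * z ∈ Lam b →
      (z ∉ Lam (m * b) → τ (gO m b z) = gO m (a * b) z) ∧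
      τ (Theta m b z) = Theta m (a * b) z

/-- NEW. The elements outside of `Gal(Om/K)` (from `S_E1`, `S_E10` and the complex conjugation `c` of `S_R1`: `PsiC τ N a`
iff `Psi (τ c) N a`): `PsiC`, its action on `W` and on the framing; compositions; uniqueness. -/
def S_E11 : Prop :=
  ∀ (n t : ℕ) [Rmf n t] (N : ℕ), 0 < N → 15 ∣ N →
    (∀ τ : Gal(Om/ℚ), τ ∉ GK n t → (∃ a : Ideal (OO n t), PsiC τ N a) ∧
      ∀ v : OO n t, τ (toO v) = toO (cjO v)) ∧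
    (∀ (τ : Gal(Om/ℚ)) (a : Ideal (OO n t)), PsiC τ N a →
      (∀ b : Ideal (OO n t), G15 b →
        (∀ z : ℂ, (N : ℂ) * z ∈ Lam b → τ (vO b z) = vO (a * cjI b) ((starRingEnd ℂ) z)) ∧
        ∀ c : Ideal (OO n t), G15 c → τ (rO b c) = rO (a * cjI b) (a * cjI c)) ∧
      (∀ a' : Ideal (OO n t), PsiC τ N a' → Ray N a a') ∧
      (∀ a' : Ideal (OO n t), Ray N a a' → PsiC τ N a') ∧
      (∀ (σ : Gal(Om/ℚ)) (a' : Ideal (OO n t)), Psi σ N a' → PsiC (σ * τ) N (a' * a) ∧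
        PsiC (τ * σ) N (a * cjI a')) ∧
      ∀ (τ' : Gal(Om/ℚ)) (a' : Ideal (OO n t)), PsiC τ' N a' → Psi (τ * τ') N (a * cjI a')) ∧
    (∀ c : Gal(Om/ℚ), (∀ x : Om, io (c x) = (starRingEnd ℂ) (io x)) → PsiC c N (⊤ : Ideal (OO n t))) ∧
    ∀ (τ : Gal(Om/ℚ)) (M : ℕ) (a : Ideal (OO n t)), PsiC τ N a → M ∣ N → 15 ∣ M → PsiC τ M a

end Pool.Agent.DR
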