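import Pool.Agent.Lib.DR.Iface
import Pool.Agent.Lib.DS.IfaceG

/-!
# Theorem DR: the outputs of Part G (elliptic units), used by Part I (author helper42)

`DS.IsRep` (representatives modulo all units), `DS.S_GR`, `DS.S_GM`, `DS.S_G3` of `DS/IfaceG.lean` (all `SqN`) are used as they
are; `S_H` is in `DR/IfaceH.lean` (helper9). NEW here: in `IsDS` only the classes with a norm `± 1` modulo `2 ^ N` have a
representative (if the completion of `K` is `ℚ₂(√2)` or `ℚ₂(√10)`, the norms of the principal ideals are `± 1` modulo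
`8`); `S_G` is only for the characters which are not invariant under complex conjugation (for the others: Theorem
DI), and the prime `P'` of the decomposition group is any prime above `2` (they are all conjugate under `Gal(Om/K)`).
Nothing is proved here.
-/

set_option autoImplicit false

open scoped Pointwise Topology nonZeroDivisors
open Filter

noncomputable section

namespace Pool.Agent.DR

open Pool.Agent.MuZ Pool.Agent.FW NumberField IsDedekindDomain Pool.Agent.DN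
open Pool.Agent.DI (io ofC io_inj exists_io io_ofC ofC_io VP MP UP TP ex sqr sqr_sq kap)

/-- A system of representatives `c`, `N c = ± 1` modulo `2 ^ N`, of the classes in `Cl(2 f) / H_f` which contain
ideals of norm `± 1` modulo `2 ^ N` (`H_f` is the group of the classes of the principal ideals `(v)`, `v` in `H_f`). -/
structure IsDS {k t : ℕ} (f N : ℕ) (D : Finset (Ideal (OO k t))) : Prop where
  mem : ∀ c ∈ D, c ≠ ⊥ ∧ PrI c (2 * f) ∧
    ((2 : ℤ) ^ N ∣ (NI c : ℤ) - 1 ∨ (2 : ℤ) ^ N ∣ (NI c : ℤ) + 1)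
  ex : ∀ b : Ideal (OO k t), b ≠ ⊥ → PrI b (2 * f) →
    ((2 : ℤ) ^ N ∣ (NI b : ℤ) - 1 ∨ (2 : ℤ) ^ N ∣ (NI b : ℤ) + 1) →
    ∃ c ∈ D, ∃ a : Ideal (OO k t), HP f a ∧ Ray (2 * f) b (a * c)
  uni : ∀ c ∈ D, ∀ c' ∈ D, (∃ a : Ideal (OO k t), HP f a ∧ Ray (2 * f) c' (a * c)) → c = c'

/-- Representatives exist. -/
def S_GR : Prop :=
  ∀ (k t : ℕ) [Rmf k t] (f N : ℕ), Odd f → 15 ∣ f → 1 ≤ N →
    (∃ T : Finset (OO k t), DS.IsRep f N T) ∧ ∃ D : Finset (Ideal (OO k t)), IsDS f N D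

/-- **Output of Part G.** For all large `N`, for the characters which are not invariant under conjugation. -/
def S_G : Prop :=
  ∀ (k t : ℕ) [Rmf k t] (f : ℕ) (m : Ideal (OO k t)) (χ : Ideal (OO k t) → Om) (P : Ideal ZZ),
    Odd f → 15 ∣ f → m ≠ ⊥ → m ≠ ⊤ → PrI m 2 → PrI m f → IsChi (2 * f) χ → Ncj χ → Ab2 P →
    ∃ N0 : ℕ, 3 ≤ N0 ∧ ∀ N : ℕ, N0 ≤ N → ∀ T : Finset (OO k t), DS.IsRep f N T →
      ∀ D : Finset (Ideal (OO k t)), IsDS f N D →
        ∃ (P' : Ideal ZZ) (d : Gal(Om/ℚ)), Ab2 P' ∧ (∀ x : ZZ, x ∈ P' → d • x ∈ P') ∧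
          (∀ n : ℕ, ∀ x ∈ Mn k t f n, d x = x) ∧ (∀ i : Om, i ^ 2 = -1 → d i = i) ∧
          ¬ MP P (∑ c ∈ D, χ c * ((kap (uN f N m T c) d).val : Om))

/-- The result for the fields `L`. -/
def S_I : Prop :=
  ∀ (k t : ℕ) [Rmf k t] (f : ℕ), Odd f → 15 ∣ f → XFinGen 2 (cyc 2 (Lf k t f))

end Pool.Agent.DR
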