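import Pool.Agent.Lib.DR.IfaceL
import Pool.Agent.Lib.DN.IfaceF
import Pool.Agent.Lib.DR.F4.FH

/-!
# Theorem DR: the interface of part F (non-constancy), author helper12

The output is `S_F` of `DR/IfaceL.lean`. `S_Kf`, `S_Lead`, `S_F2`, `S_Psi`, `S_FH`: the division of part F. The
functions `AF`, `CF` and the coefficients `aF`, `cF`, the series `uF`, the fields `Kf n t N`, `IsSig`, `IsCj` are
those of `DN/IfaceF.lean` (they are defined for all imaginary quadratic fields). Levels: `DR.IsLv`; the group is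
`Γ_1(32 M)`. Nothing is proved here. A false or awkward statement: mail helper12 at once.

IDEA. `A = N0 ∑ σ_b(β) ThM (2f) m b` (sum over the classes modulo `2 f`), `β = pO β₀/2`, `β₀` in the ray class field
modulo `f`. If `xs` is constant modulo `P` and `χ` is not invariant under complex conjugation, then for a suitable `β₀`
the periods `α(g)` are in `O`, `α(g) + α(g')` is in `pp`, and the leading coefficient of `fr C`,
`C(z) = A(z) + conj A(- conj z)`, has exactly the valuation `1/2` at some prime `Q` above `2`. `G(v)² = X(2v) - X(T)`,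
`T = pO/2`, `G` is invariant under `v → v + T`: `Ψ = G(C/2)` is a modular function, a quotient of bounded series;
contradiction at `Q` (`DR.F4.fh`).
-/

set_option autoImplicit false

open scoped Pointwise Topology MatrixGroups
open Filter

noncomputable section

namespace Pool.Agent.DR

open Pool.Agent.MuZ Pool.Agent.FW NumberField Pool.Agent.DN
open Pool.Agent.DI (io ofC io_inj exists_io io_ofC ofC_io VP MP UP TP ex)

/-- Galois theory of `Kf n t f`, `Kf n t (2 * f)`; the first one is unramified over `K` above `2`. -/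
def S_Kf : Prop :=
  ∀ (n t : ℕ) [Rmf n t] (f : ℕ), Odd f → 15 ∣ f →
    (∀ N : ℕ, (N = f ∨ N = 2 * f) → FiniteDimensional ℚ (Kf n t N) ∧ wO n t ∈ Kf n t N ∧
      (∀ τ ∈ GK n t, ∀ x ∈ Kf n t N, τ x ∈ Kf n t N) ∧
      ∀ τ ∈ GK n t, ∀ τ' ∈ GK n t, ∀ a a' : Ideal (OO n t), Psi τ N a → Psi τ' N a' →
        ((∀ x ∈ Kf n t N, τ x = τ' x) ↔ Ray N a a')) ∧
    Kf n t f ≤ Kf n t (2 * f) ∧ (∃ σ, IsSig n t f σ) ∧
    (∀ x : Om, (∀ τ ∈ GK n t, τ x = x) → x ∈ KQ n t) ∧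
    (∀ P : Ideal ZZ, Ab2 P → ∀ τ ∈ GK n t, τ ∈ P.inertia Gal(Om/ℚ) → ∀ x ∈ Kf n t f, τ x = x) ∧
    (∀ P : Ideal ZZ, Ab2 P → ∀ τ ∈ GK n t, ∀ τ' ∈ GK n t,
      (∀ x ∈ Kf n t f, IsIntegral ℤ x → MP P (τ x - τ' x)) → ∀ x ∈ Kf n t f, τ x = τ' x) ∧
    (∃ c : Gal(Om/ℚ), IsCj c) ∧ (∀ c : Gal(Om/ℚ), IsCj c → c * c = 1 ∧ c (wO n t) = - wO n t) ∧
    ∀ P : Ideal ZZ, Ab2 P → ∃ τ ∈ P.inertia Gal(Om/ℚ), τ ∉ GK n t

/-- The periods of `A` are in `O`, with `α(g) + α(g')` in `pp`, `g' = (a -b; -c d)`. -/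
def IsPer {n t : ℕ} (f M : ℕ) (m : Ideal (OO n t)) (R : Finset (Ideal (OO n t)))
    (σ : Ideal (OO n t) → Gal(Om/ℚ)) (N0 : ℕ) (β : Om) : Prop :=
  ∀ a b c d : ℤ, G0 (32 * M) a b c d → (32 * M : ℤ) ∣ d - 1 → ∃ α α' : OO n t,
    α + α' ∈ pp n t ∧ ∀ z : ℂ, 0 < z.im →
      AF f m R σ N0 β ((a * z + b) / (c * z + d)) = AF f m R σ N0 β z + toC α ∧
      AF f m R σ N0 β ((a * z - b) / (-c * z + d)) = AF f m R σ N0 β z + toC α'

/-- The coefficients of `A`: `a_0 = 0`, divisibility, `a_1`. -/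
def S_Lead : Prop :=
  ∀ (n t : ℕ) [Rmf n t] (f : ℕ) (m : Ideal (OO n t)) (R : Finset (Ideal (OO n t))), FM f m → FR f R →
    IsRC (2 * f) R → ∀ σ : Ideal (OO n t) → Gal(Om/ℚ), IsSig n t f σ → ∀ (N0 : ℕ) (β : Om),
      β ∈ Kf n t (2 * f) →
      (∀ j : ℕ, aF f m R σ N0 β j ∈ Kf n t (2 * f)) ∧ aF f m R σ N0 β 0 = 0 ∧
      (∀ z : ℂ, 0 < z.im → HasSum (fun j : ℕ => io (aF f m R σ N0 β j) * ex z ^ j)
        (fr (⊤ : Ideal (OO n t)) * AF f m R σ N0 β z)) ∧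
      (∀ Q : Ideal ZZ, Ab2 Q → ∀ γ : Om, γ ≠ 0 → (∀ b ∈ R, VP Q (2 * σ b β / γ)) →
        ∀ j : ℕ, VP Q (aF f m R σ N0 β j / γ)) ∧
      (m ≠ ⊤ → Odd N0 → ∃ b1 ∈ R, Ray (2 * f) (m * b1) ⊤ ∧ ∃ u : Om,
        aF f m R σ N0 β 1 = u * (2 * σ b1 β * rO b1 ⊤) ∧ ∀ Q : Ideal ZZ, Ab2 Q → MP Q (u - 1))

/-- **F1, F2.** If `xs` is constant modulo `P`: there is `β` such that `A = AF f m R2 σ N0 β` has periods in `O`, with
`α(g) + α(g')` in `pp`, and the leading coefficient of `fr C` has the valuation `1/2` at some prime above `2`. -/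
def S_F2 : Prop :=
  ∀ (n t : ℕ) [Rmf n t] (f M : ℕ) (m : Ideal (OO n t)) (R R2 : Finset (Ideal (OO n t))), FM f m →
    m ≠ ⊤ → FR f R → IsRC f R → IsLv f m R M → FR f R2 → IsRC (2 * f) R2 → IsLv f m R2 M →
    ∀ χ : Ideal (OO n t) → Om, IsChi (2 * f) χ → Ncj χ → ∀ P : Ideal ZZ, Ab2 P →
    ∀ σ : Ideal (OO n t) → Gal(Om/ℚ), IsSig n t f σ → ∀ c : Gal(Om/ℚ), IsCj c →
    (∀ a b c' d : ℤ, G0 M a b c' d → (4 : ℤ) ∣ b → (M : ℤ) ∣ d - 1 →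
      MP P (xs f m R χ (b / d) - xs f m R χ 0)) →
    ∃ (N0 : ℕ) (β : Om) (Q : Ideal ZZ), Ab2 Q ∧ β ∈ Kf n t (2 * f) ∧
      (∀ j : ℕ, VP Q (cF f m R2 σ c N0 β j / toO (pO n t))) ∧
      UP Q (cF f m R2 σ c N0 β 1 / toO (pO n t)) ∧ IsPer f M m R2 σ N0 β

/-- **F3.** The function `Ψ = G(C/2)`, `G(v)² = X(2 v) - X(pO/2)`, and its expansion. -/
def S_Psi : Prop :=
  ∀ (n t : ℕ) [Rmf n t] (f M : ℕ) (m : Ideal (OO n t)) (R : Finset (Ideal (OO n t))), FM f m →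
    FR f R → IsRC (2 * f) R → IsLv f m R M →
    ∀ σ : Ideal (OO n t) → Gal(Om/ℚ), IsSig n t f σ → ∀ c : Gal(Om/ℚ), IsCj c →
    ∀ (N0 : ℕ) (β : Om), β ∈ Kf n t (2 * f) → cF f m R σ c N0 β 1 ≠ 0 →
    ∃ Ψ : ℂ → ℂ, (∀ z : ℂ, 0 < z.im → MeromorphicAt Ψ z) ∧
      (∀ z z' : ℂ, 0 < z.im → 0 < z'.im → ∀ α α' : OO n t, α + α' ∈ pp n t →
        AF f m R σ N0 β z' = AF f m R σ N0 β z + toC α →
        AF f m R σ N0 β (-(starRingEnd ℂ) z') = AF f m R σ N0 β (-(starRingEnd ℂ) z) + toC α' →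
        Ψ z' = Ψ z) ∧
      (∀ γ : SL(2, ℤ), ∃ (F : ℂ → ℂ) (Y : ℝ), MeromorphicAt F 0 ∧
        ∀ z : UpperHalfPlane, Y < z.im → Ψ ((γ • z : UpperHalfPlane) : ℂ) =
          F (Complex.exp (2 * Real.pi * Complex.I * (z : ℂ) / ((32 * M : ℕ) : ℂ)))) ∧
      ∃ (T W ψ : PowerSeries Om) (Y : ℝ) (j : ℕ) (L : IntermediateField ℚ Om),
        FiniteDimensional ℚ L ∧ (∀ i, PowerSeries.coeff i ψ ∈ L) ∧
        _root_.DN.F4.TWr (a1O (⊤ : Ideal (OO n t))) (a3O (⊤ : Ideal (OO n t)))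
          (uF f m R σ c N0 β) T W ∧
        ψ ^ 2 * W = PowerSeries.X ^ 2 *
          (T - PowerSeries.C (xO (⊤ : Ideal (OO n t)) (toC (pO n t) / 2)) * W) ∧
        ∀ z : ℂ, Y < z.im → HasSum (fun i : ℕ => io (PowerSeries.coeff i ψ) * ex z ^ i)
          (ex z ^ j * Ψ z)

/-- **F4.** The contradiction (from `DR.F4.fh`). -/
def S_FH : Prop :=
  ∀ (n t : ℕ) [Rmf n t] (f : ℕ) (m : Ideal (OO n t)) (R : Finset (Ideal (OO n t))), FM f m →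
    FR f R → IsRC (2 * f) R → ∀ Q : Ideal ZZ, Ab2 Q →
    ∀ σ : Ideal (OO n t) → Gal(Om/ℚ), IsSig n t f σ → ∀ c : Gal(Om/ℚ), IsCj c →
    ∀ (N0 : ℕ) (β : Om), β ∈ Kf n t (2 * f) →
    (∀ j : ℕ, VP Q (cF f m R σ c N0 β j / toO (pO n t))) →
    UP Q (cF f m R σ c N0 β 1 / toO (pO n t)) →
    ∀ (T W ψ Q1 Q2 : PowerSeries Om),
      _root_.DN.F4.TWr (a1O (⊤ : Ideal (OO n t))) (a3O (⊤ : Ideal (OO n t)))
        (uF f m R σ c N0 β) T W →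
      ψ ^ 2 * W = PowerSeries.X ^ 2 *
        (T - PowerSeries.C (xO (⊤ : Ideal (OO n t)) (toC (pO n t) / 2)) * W) →
      Q2 ≠ 0 → Q2 * ψ = Q1 → ∀ K' : IntermediateField ℚ Om, FiniteDimensional ℚ K' →
      (∀ i, PowerSeries.coeff i Q1 ∈ K') → (∀ i, PowerSeries.coeff i Q2 ∈ K') →
      (∀ i, VP Q (PowerSeries.coeff i Q1)) → (∀ i, VP Q (PowerSeries.coeff i Q2)) → False

end Pool.Agent.DR
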